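import Pool.Agent.Y518.CC.FStm

/-!
# Colourings of Borel graphs without Vitali sets: distributivity of the random algebra
-/

set_option autoImplicit false

namespace Pool.Agent.Y659.CC.DST

open Pool.Agent.Y518.CC
open Pool.Agent.W868 Pool.Agent.W868.PName Pool.Agent.W910 Pool.Agent.W910.SY
open MeasureTheory

/-- Every dense set has a countable predense subset. -/
theorem ds1 {k : ℕ} {Γ : SimpleGraph (ℕ → ℕ)} (D : Dat k Γ) (E : Set (Cn D)) (p₀ : Cn D)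
    (hE : ∀ q ∈ E, ∀ r ≤ q, r ∈ E) (hD : ∀ q ≤ p₀, ∃ r ≤ q, r ∈ E) :
    ∃ m : ℕ → Cn D, (∀ j, m j ∈ E) ∧ ∀ q ≤ p₀, ∃ j, D.μ (q.1 ∩ (m j).1) ≠ 0 := by
  obtain ⟨A, hA⟩ := zorn_subset {A : Set (Cn D) | A ⊆ E ∧ A.PairwiseDisjoint fun a => a.1} (by
    intro c hc hch
    refine ⟨⋃₀ c, ⟨Set.sUnion_subset fun s hs => (hc hs).1, ?_⟩, fun s hs =>
      Set.subset_sUnion_of_mem hs⟩
    exact (Set.pairwiseDisjoint_sUnion hch.directedOn).2 fun s hs => (hc hs).2)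
  have hcnt : A.Countable := by
    have h1 := Measure.countable_meas_pos_of_disjoint_iUnion (μ := D.μ)
      (As := fun a : A => a.1.1) (fun a => a.1.2.1) (fun a b hab =>
        hA.prop.2 a.2 b.2 fun h => hab (Subtype.ext h))
    have h2 : {a : A | 0 < D.μ a.1.1} = Set.univ :=
      Set.eq_univ_of_forall fun a => pos_iff_ne_zero.2 a.1.2.2
    rw [h2, Set.countable_univ_iff] at h1
    exact Set.countable_coe_iff.1 h1
  have key : ∀ q ≤ p₀, ∃ a ∈ A, D.μ (q.1 ∩ a.1) ≠ 0 := by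
    intro q hq
    by_contra hcon
    push Not at hcon
    obtain ⟨r, hr, hrE⟩ := hD q hq
    have h0 : D.μ (⋃ a ∈ A, (r.1 ∩ a.1)) = 0 := by
      rw [measure_biUnion_null_iff hcnt]
      intro a ha
      exact measure_mono_null (Set.inter_subset_inter_left _ hr) (hcon a ha)
    have hm : MeasurableSet (⋃ a ∈ A, (r.1 ∩ a.1)) :=
      MeasurableSet.biUnion hcnt fun a _ => r.2.1.inter a.2.1
    have h3 : D.μ (r.1 \ ⋃ a ∈ A, (r.1 ∩ a.1)) ≠ 0 := by
      rw [measure_sdiff_null h0]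
      exact r.2.2
    let r' : Cn D := ⟨r.1 \ ⋃ a ∈ A, (r.1 ∩ a.1), r.2.1.diff hm, h3⟩
    have hr' : r' ≤ r := Set.sdiff_subset
    have hdis : ∀ a ∈ A, Disjoint r'.1 a.1 := by
      intro a ha
      rw [Set.disjoint_left]
      intro u hu hua
      exact hu.2 (Set.mem_biUnion ha ⟨hu.1, hua⟩)
    have hin : insert r' A ∈ {A : Set (Cn D) | A ⊆ E ∧ A.PairwiseDisjoint fun a => a.1} := by
      refine ⟨Set.insert_subset (hE r hrE r' hr') hA.prop.1, ?_⟩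
      exact hA.prop.2.insert fun a ha _ => hdis a ha
    have h4 : r' ∈ A := hA.le_of_ge hin (Set.subset_insert _ _) (Set.mem_insert _ _)
    obtain ⟨u, hu⟩ := r'.nonempty
    exact Set.disjoint_left.1 (hdis r' h4) hu hu
  have hne : A.Nonempty := by
    obtain ⟨a, ha, _⟩ := key p₀ le_rfl
    exact ⟨a, ha⟩
  obtain ⟨m, rfl⟩ := hcnt.exists_eq_range hne
  refine ⟨m, fun j => hA.prop.1 ⟨j, rfl⟩, fun q hq => ?_⟩
  obtain ⟨_, ⟨j, rfl⟩, h⟩ := key q hq
  exact ⟨j, h⟩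

/-- **DST (1).** -/
theorem main : S_DS2 := by
  intro k Γ D E p₀ hE hD
  choose m h1 h2 using fun n => ds1 D (E n) p₀ (hE n) (hD n)
  exact ⟨m, h1, h2⟩

/-- **DST (2).** -/
theorem main2 (h : S_SUP) : S_DST := by
  intro k Γ D E p₀ hE hD
  obtain ⟨m, h1, h2⟩ := main k Γ D E p₀ hE hD
  choose S hS hS' using fun n j => h k (m n j).1 (m n j).2.1
  refine ⟨p₀, le_rfl, Fx (⋃ n, ⋃ j, S n j),
    ⟨_, Set.countable_iUnion fun n => Set.countable_iUnion fun j => hS n j, rfl⟩, m, m, h1,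
    ?_, ?_, ?_⟩
  · intro n j g hg
    refine Subtype.ext (hS' n j g fun i hi hin => hg i hi ?_)
    exact Set.mem_iUnion.2 ⟨n, Set.mem_iUnion.2 ⟨j, hin⟩⟩
  · intro n q hq
    obtain ⟨j, hj⟩ := h2 n q hq
    exact ⟨⟨q.1 ∩ (m n j).1, q.2.1.inter (m n j).2.1, hj⟩, Set.inter_subset_left, j,
      Set.inter_subset_right⟩
  · exact fun n j q _ hq => hq

end Pool.Agent.Y659.CC.DST
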