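import Pool.Agent.Y518.CC.MStm
import Pool.Agent.H894R3.Ana

/-!
# Colourings of Borel graphs without Vitali sets: measurability of the goodness
-/

set_option autoImplicit false

namespace Pool.Agent.Y659.CC.KEY

open Pool.Agent.Y518.CC
open MeasureTheory

variable {k : ℕ}

/-- The points of the Baire space whose colours are the letters. -/
def Yf (O : Finset (Lab k)) (u : Om k) (a : O) : ℕ → ℕ :=
  match a.1 with
  | .base _ _ => 0
  | .col l F => ev l F u

/-- The value that the label `a` should have. -/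
def vc (O : Finset (Lab k)) (b : ℝ × ℕ → Bool) (c : O → Fin (k + 1)) (a : O) : Al k :=
  match a.1 with
  | .base j e => (b j ^^ e, 0)
  | .col _ _ => (false, c a)

theorem vl_eq (O : Finset (Lab k)) (b : ℝ × ℕ → Bool) (t : (ℕ → ℕ) → Fin (k + 1)) (u : Om k)
    (a : O) : vl b t u a.1 = vc O b (fun a => t (Yf O u a)) a := by
  obtain ⟨a, ha⟩ := a
  cases a <;> rfl

/-- The letters are possible for some bits. -/
def Cst (O : Finset (Lab k)) (s : Om k) (c : O → Fin (k + 1)) : Prop :=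
  ∃ b : ℝ × ℕ → Bool, ∀ a : O, s a.1 = vc O b c a

/-- The colours can be chosen. -/
def PP (Γ : SimpleGraph (ℕ → ℕ)) (O : Finset (Lab k)) (s : Om k) (m : ℕ)
    (w : Fin m ⊕ O → ℕ → ℕ) : Prop :=
  ∃ c : Fin m ⊕ O → Fin (k + 1), (∀ i j, w i = w j → c i = c j) ∧
    (∀ i j : Fin m, Γ.Adj (w (.inl i)) (w (.inl j)) → c (.inl i) ≠ c (.inl j)) ∧
    Cst O s fun a => c (.inr a)

/-- The bad points. -/
def Bad (Γ : SimpleGraph (ℕ → ℕ)) (O : Finset (Lab k)) (s : Om k) : Set (O → ℕ → ℕ) :=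
  ⋃ m : ℕ, Prod.snd '' {p : (Fin m → ℕ → ℕ) × (O → ℕ → ℕ) | ¬ PP Γ O s m (Sum.elim p.1 p.2)}

theorem exists_t {J : Type} (w : J → ℕ → ℕ) (c : J → Fin (k + 1))
    (h : ∀ i j, w i = w j → c i = c j) : ∃ t : (ℕ → ℕ) → Fin (k + 1), ∀ i, t (w i) = c i := by
  classical
  refine ⟨fun y => if h : ∃ i, w i = y then c h.choose else 0, fun i => ?_⟩
  have h1 : ∃ j, w j = w i := ⟨i, rfl⟩
  simp only [h1, dif_pos]
  exact h _ _ h1.choose_spec

theorem goodS_iff (Γ : SimpleGraph (ℕ → ℕ)) (O : Finset (Lab k)) (s u : Om k) :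
    ¬ GoodS Γ O s u ↔ Yf O u ∈ Bad Γ O s := by
  rw [Bad, Set.mem_iUnion]
  constructor
  · intro h
    unfold GoodS at h
    push Not at h
    obtain ⟨Z, hZ⟩ := h
    let e := Z.equivFin
    refine ⟨Z.card, ⟨fun i => (e.symm i).1, Yf O u⟩, ?_, rfl⟩
    rintro ⟨c, h1, h2, b, h3⟩
    obtain ⟨t, ht⟩ := exists_t _ c h1
    have hti : ∀ i : Fin Z.card, t (e.symm i).1 = c (.inl i) := fun i => ht (.inl i)
    have hta : ∀ a : O, t (Yf O u a) = c (.inr a) := fun a => ht (.inr a)
    obtain ⟨a, ha, hne⟩ := hZ b t (by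
      intro y hy z hz hyz
      have hy' : y = (e.symm (e ⟨y, hy⟩)).1 := by rw [Equiv.symm_apply_apply]
      have hz' : z = (e.symm (e ⟨z, hz⟩)).1 := by rw [Equiv.symm_apply_apply]
      rw [hy', hz', hti, hti]
      refine h2 _ _ ?_
      change Γ.Adj (e.symm (e ⟨y, hy⟩)).1 (e.symm (e ⟨z, hz⟩)).1
      rw [← hy', ← hz']
      exact hyz)
    apply hne
    have h4 := vl_eq O b t u ⟨a, ha⟩
    simp only [hta] at h4
    rw [h4]
    exact h3 ⟨a, ha⟩
  · rintro ⟨m, ⟨z, y⟩, hz, hy⟩ hgood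
    change y = Yf O u at hy
    subst hy
    apply hz
    classical
    obtain ⟨b, t, h1, h2⟩ := hgood (Finset.univ.image z)
    refine ⟨fun i => t (Sum.elim z (Yf O u) i), fun i j hij => congrArg t hij, fun i j hij => ?_,
      b, fun a => ?_⟩
    · exact h1 _ (Finset.mem_image_of_mem _ (Finset.mem_univ i)) _
        (Finset.mem_image_of_mem _ (Finset.mem_univ j)) hij
    · rw [h2 a.1 a.2, vl_eq]
      rfl

theorem measurableSet_PP (Γ : SimpleGraph (ℕ → ℕ))
    (hΓ : MeasurableSet {p : (ℕ → ℕ) × (ℕ → ℕ) | Γ.Adj p.1 p.2}) (O : Finset (Lab k))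
    (s : Om k) (m : ℕ) : MeasurableSet {w : Fin m ⊕ O → ℕ → ℕ | PP Γ O s m w} := by
  unfold PP
  simp only [Set.ofPred_exists, Set.ofPred_and, Set.ofPred_forall]
  refine MeasurableSet.iUnion fun c => ?_
  refine MeasurableSet.inter ?_ (MeasurableSet.inter ?_ ?_)
  · refine MeasurableSet.iInter fun i => MeasurableSet.iInter fun j => ?_
    by_cases h : c i = c j
    · simp [h]
    · have h1 : {a : Fin m ⊕ O → ℕ → ℕ | a i = a j → c i = c j} = {a | a i = a j}ᶜ := by
        ext a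
        simp [h]
      rw [h1]
      exact (measurableSet_eq_fun (measurable_pi_apply i) (measurable_pi_apply j)).compl
  · refine MeasurableSet.iInter fun i => MeasurableSet.iInter fun j => ?_
    by_cases h : c (.inl i) = c (.inl j)
    · have h1 : {a : Fin m ⊕ O → ℕ → ℕ | Γ.Adj (a (.inl i)) (a (.inl j)) →
          c (.inl i) ≠ c (.inl j)} = ((fun a : Fin m ⊕ O → ℕ → ℕ => (a (.inl i), a (.inl j))) ⁻¹'
            {p : (ℕ → ℕ) × (ℕ → ℕ) | Γ.Adj p.1 p.2})ᶜ := by
        ext a
        simp [h]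
      rw [h1]
      have h2 : Measurable fun a : Fin m ⊕ O → ℕ → ℕ => (a (.inl i), a (.inl j)) :=
        Measurable.prodMk (measurable_pi_apply _) (measurable_pi_apply _)
      exact (h2 hΓ).compl
    · simp [h]
  · exact MeasurableSet.const _

theorem polish_prod (α β : Type) [TopologicalSpace α] [TopologicalSpace β] [PolishSpace α]
    [PolishSpace β] : PolishSpace (α × β) := inferInstance

theorem borel_prod (α β : Type) [TopologicalSpace α] [TopologicalSpace β] [PolishSpace α]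
    [PolishSpace β] [MeasurableSpace α] [MeasurableSpace β] [BorelSpace α] [BorelSpace β] :
    BorelSpace (α × β) := inferInstance

theorem analyticSet_Bad (Γ : SimpleGraph (ℕ → ℕ))
    (hΓ : MeasurableSet {p : (ℕ → ℕ) × (ℕ → ℕ) | Γ.Adj p.1 p.2}) (O : Finset (Lab k))
    (s : Om k) : AnalyticSet (Bad Γ O s) := by
  refine AnalyticSet.iUnion fun m => ?_
  refine AnalyticSet.image_of_continuous ?_ continuous_snd
  have h0 : PolishSpace ((Fin m → ℕ → ℕ) × (O → ℕ → ℕ)) := polish_prod _ _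
  have h0' : BorelSpace ((Fin m → ℕ → ℕ) × (O → ℕ → ℕ)) := borel_prod _ _
  refine MeasurableSet.analyticSet ?_
  have h1 : Measurable fun p : (Fin m → ℕ → ℕ) × (O → ℕ → ℕ) =>
      (Sum.elim p.1 p.2 : Fin m ⊕ O → ℕ → ℕ) := by
    refine measurable_pi_lambda _ fun i => ?_
    cases i with
    | inl i => exact (measurable_pi_apply i).comp measurable_fst
    | inr i => exact (measurable_pi_apply i).comp measurable_snd
  exact (h1 (measurableSet_PP Γ hΓ O s m)).compl

theorem measurable_Yf (S : Set (Lab k)) (O : Finset (Lab k)) (hO : ∀ a ∈ O, a ∈ nx S) :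
    Measurable[cE S] (Yf O : Om k → O → ℕ → ℕ) := by
  refine @measurable_pi_lambda _ _ _ (cE S) _ _ fun a => ?_
  obtain ⟨a, ha⟩ := a
  cases a with
  | base j e => exact measurable_const
  | col l F =>
    have h1 : ∀ n, l n ∈ S := hO _ ha
    change Measurable[cE S] (ev l F)
    refine F.2.comp ?_
    refine @measurable_pi_lambda _ _ _ (cE S) _ _ fun n => ?_
    exact measurable_cylinderEvent_apply (h1 n)

/-- **KEY.** -/
theorem main : S_KEY := by
  intro k Γ hΓ S O hO μ hμ s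
  have hY : Measurable[cE S] (Yf O : Om k → O → ℕ → ℕ) := measurable_Yf S O hO
  have hle : cE S ≤ (MeasurableSpace.pi : MeasurableSpace (Om k)) := cylinderEvents_le_pi
  have hY' : Measurable (Yf O : Om k → O → ℕ → ℕ) := hY.mono hle le_rfl
  have hnull : NullMeasurableSet (Bad Γ O s) (μ.map (Yf O)) := by
    have h1 : IsProbabilityMeasure (μ.map (Yf O)) :=
      Measure.isProbabilityMeasure_map hY'.aemeasurable
    have h2 : (μ.map (Yf O)).WeaklyRegular :=
      Measure.WeaklyRegular.of_pseudoMetrizableSpace_of_isFiniteMeasure _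
    have h3 : (μ.map (Yf O)).OuterRegular := h2.toOuterRegular
    exact H894R3.Ana.analytic_nullMeasurable _ (analyticSet_Bad Γ hΓ O s)
  refine ⟨Yf O ⁻¹' toMeasurable (μ.map (Yf O)) (Bad Γ O s),
    hY (measurableSet_toMeasurable _ _), fun u hu => ?_, fun ν hν hνμ => ?_⟩
  · exact subset_toMeasurable _ _ ((goodS_iff Γ O s u).1 hu)
  · have h1 : ν.map (Yf O) = μ.map (Yf O) := by
      refine Measure.ext fun A hA => ?_
      rw [Measure.map_apply hY' hA, Measure.map_apply hY' hA]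
      exact hνμ _ (hY hA)
    have h2 : ∀ᵐ y ∂(ν.map (Yf O)), y ∈ toMeasurable (μ.map (Yf O)) (Bad Γ O s) →
        y ∈ Bad Γ O s := by
      rw [h1]
      filter_upwards [hnull.toMeasurable_ae_eq.mem_iff] with y hy
      exact hy.1
    filter_upwards [ae_of_ae_map hY'.aemeasurable h2] with u hu hu'
    exact (goodS_iff Γ O s u).2 (hu hu')

end Pool.Agent.Y659.CC.KEY
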